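import Pool.Agent.helper13.RF.SpecU

/-!
# RF (MP_16912e_nt), stage 2, block B': row CG3

The last part of `BT_stmt`: points with `gUb f p = 1`, `D₀` large compared with `f`.
-/

set_option autoImplicit false

namespace Pool.Agent.RF

open NumberField

theorem CG3_f0 {D₀ : ℤ} {f : ℕ} {p : Pt} (a1 : IsPt2 p) (a2 : p.D = D₀ * (f : ℤ) ^ 2) : 0 < f := by
  rcases Nat.eq_zero_or_pos f with rfl | h
  · have h6 := a1.D0
    rw [a2] at h6
    simp at h6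
  · exact h

/-- **CG3.** -/
theorem CG3 (h1 : MEX_stmt) (h2 : CTX_stmt) (h3 : UTV_stmt) (h4 : UCG_stmt) (h5 : MU3_stmt) (h6 : URG_stmt) (h7 : HA3_stmt) : CG3_stmt := by
  intro D₀ f hD hsq h5D hf K _ _ hK hKx S hS hk
  have hD5 : D₀ ≠ 5 := by
    rintro rfl
    exact h5D (dvd_refl _)
  obtain ⟨F, _, _, s, r, w, hM⟩ := h1 D₀ hD hsq hD5
  obtain ⟨C, rfl, _⟩ := h2 D₀ F s r w hD hsq h5D hM
  have hD0 : 0 < D₀ := by linarith
  have hB : (0 : ℝ) ≤ 1 + 181 * 36 ^ f.primeFactors.card := by positivity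
  have hgood : ∀ p ∈ S, ∀ l : ℕ, l.Prime → l ∣ f → ¬ (l : ℤ) ∣ p.n.norm := by
    intro p hp l hl hlf hln
    obtain ⟨a1, a2, a3, _⟩ := hS p hp
    obtain ⟨-, -, -, -, -, -, -, b⟩ := h7 f p (CG3_f0 a1 a2)
    have b1 := (b l hl).2 ⟨hlf, hln⟩
    rw [a3] at b1
    exact hl.one_lt.ne' (Nat.dvd_one.1 b1)
  refine h4 D₀ F C f hD hsq hD5 ⟨r, w, hM⟩ K hK hKx _ hB S ?_ ?_
  · intro p hp
    obtain ⟨a1, a2, a3, a4⟩ := hS p hp
    refine ⟨a1, a2, hgood p hp, fun hγ => ?_⟩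
    have h6 := h3 D₀ F C p f hD0 a1 a2 a4 hγ
    linarith
  · intro T hT hE
    rcases T.eq_empty_or_nonempty with rfl | ⟨p, hp⟩
    · simpa using hB
    · have hf0 : 0 < f := CG3_f0 (hS p (hT hp)).1 (hS p (hT hp)).2.1
      obtain ⟨-, -, -, -, -, b1, -, -⟩ := h7 f p hf0
      have h8 := h5 D₀ F C f 1 hsq hD0 T (fun p hp => hS p (hT hp)) (fun p hp q hq => hk p (hT hp) q (hT hq))
        (fun p hp q hq => ⟨(h6 D₀ F C f hsq p (hS p (hT hp)).1 (hS p (hT hp)).2.1 (hgood p (hT hp))).2 q (hS q (hT hq)).1 (hS q (hT hq)).2.1 (hgood q (hT hq)), hE p hp q hq⟩)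
      rw [b1] at h8
      refine h8.trans (le_of_eq ?_)
      push_cast
      ring

end Pool.Agent.RF
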